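import Pool.Agent.TH707.AM.NullSide
import Pool.Agent.TH707.SP.Main

/-!
# `AM/poly` is in `NP/poly`, relative to every oracle
-/

set_option autoImplicit false

namespace Pool.Agent.TH707.AM

open MeasureTheory Finset
open Pool.Agent.NPC Pool.Agent.H622R2
open Pool.Agent.H620R2.Gauge hiding smp
open Pool.Agent.H628R3.RO (randomOracle)
open Pool.Agent.W900 Pool.Agent.W900.RB Pool.Agent.W895.MA
open Pool.Agent.TH680.OD (join)
open Pool.Agent.TH680.NPP Pool.Agent.TH680.ND

open Classical in
/-- the sparse part of an oracle which contains the samples -/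
noncomputable def spr (O : Oracle) (b : Polynomial ℕ) : Oracle := fun x =>
  O x && decide (∃ n k, x = smp n n k ∧ k < b.eval n)

theorem spr_smp {O : Oracle} {b : Polynomial ℕ} {n k : ℕ} (h : k < b.eval n) :
    spr O b (smp n n k) = O (smp n n k) := by
  classical
  unfold spr
  rw [decide_eq_true (⟨n, k, rfl, h⟩ : ∃ n' k', smp n n k = smp n' n' k' ∧ k' < b.eval n'),
    Bool.and_true]

theorem spr_card (O : Oracle) (b : Polynomial ℕ) (N : ℕ) :
    {x : List Bool | spr O b x = true ∧ x.length ≤ N}.ncard ≤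
      ((Polynomial.X + Polynomial.C 1) * b).eval N := by
  classical
  have h3 : {x : List Bool | spr O b x = true ∧ x.length ≤ N} ⊆
      ((Finset.range (N + 1) ×ˢ Finset.range (b.eval N)).image
        (fun m => smp m.1 m.1 m.2) : Finset (List Bool)) := by
    rintro x ⟨h3, h4⟩
    unfold spr at h3
    rw [Bool.and_eq_true, decide_eq_true_eq] at h3
    obtain ⟨_, n, k, rfl, h5⟩ := h3
    rw [length_smp] at h4
    rw [Finset.mem_coe, Finset.mem_image]
    refine ⟨(n, k), ?_, rfl⟩
    rw [Finset.mem_product, Finset.mem_range, Finset.mem_range]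
    have h6 : n ≤ N := by omega
    exact ⟨by dsimp only; omega, lt_of_lt_of_le h5 (eval_mono b h6)⟩
  refine (Set.ncard_le_ncard h3 (Finset.finite_toSet _)).trans ?_
  rw [Set.ncard_coe_finset]
  refine Finset.card_image_le.trans ?_
  rw [Finset.card_product, Finset.card_range, Finset.card_range]
  simp

/-- the samples of the join are those of the sparse set -/
theorem sample_join (A O : Oracle) (b : Polynomial ℕ) {n p i t : ℕ} (hi : i < t)
    (hb : t * p ≤ b.eval n) :
    sample (join A (spr O b)) (n + 1) n p i = sample O n n p i := by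
  unfold sample
  congr 1
  funext j
  have h1 : smp (n + 1) n (i * p + j) = true :: smp n n (i * p + j) := by
    unfold smp
    rw [List.replicate_succ, List.cons_append]
  rw [h1]
  show spr O b (smp n n (i * p + j)) = _
  apply spr_smp
  have h2 : (i + 1) * p ≤ t * p := Nat.mul_le_mul_right _ hi
  have h3 := j.2
  rw [Nat.add_mul, one_mul] at h2
  omega

/-- the vote of votes, for a verifier -/
def AccV (V : List Bool → List Bool) (P : Polynomial ℕ) (r x : List Bool) : Prop :=
  1024 < Set.ncard {k : ℕ | k < 2048 ∧ ∃ y : List Bool, y.length ≤ P.eval x.length ∧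
    V (pairBits ((r.drop (k * P.eval x.length)).take (P.eval x.length)) (pairBits y x)) = [true]}

theorem acc_iff {V : List Bool → List Bool} {P : Polynomial ℕ} {M : Alg} {B : Oracle}
    (hM : ∀ z, M.out B z = some (V z)) (r x : List Bool) :
    W246.AMNP.Acc M P B r x ↔ AccV V P r x := by
  unfold W246.AMNP.Acc AccV W246.AMNP.Ok
  simp only [hM, Option.some.injEq]

open Classical in
/-- A language in `AM` is in `NP` relative to the join with a sparse set. -/
theorem am_sparse {A : Oracle} {L : Set (List Bool)} (h : IsAM A L) :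
    ∃ (S : Oracle) (p : Polynomial ℕ),
      (∀ n, {x : List Bool | S x = true ∧ x.length ≤ n}.ncard ≤ p.eval n) ∧
      IsNP (join A S) L := by
  obtain ⟨V, P, hV, hL⟩ := h
  have h1 := ae_samples (fun _ r x => AccV V P r x) Polynomial.X (Polynomial.C 2048 * P) 0
    (fun n => by simp) (fun _ _ _ _ _ _ _ _ => Iff.rfl)
  have : IsProbabilityMeasure randomOracle := by infer_instance
  obtain ⟨O, hO⟩ := h1.exists
  have h2 := hO O (by
    refine Filter.Eventually.of_forall fun n => ?_
    unfold CH.dist
    simp)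
  set τ := tau Polynomial.X 0 with hτ
  set b : Polynomial ℕ := Polynomial.C 8192 * τ * P with hb
  refine ⟨spr O b, _, spr_card O b, ?_⟩
  have hV' : IsFP (join A (spr O b)) V :=
    Pool.Agent.TH680.DT.isFP_subst (Pool.Agent.TH707.SP.isFP_left A (spr O b)) hV
  obtain ⟨M, hM⟩ := hV'
  refine W246.AMNP.isNP_of_votes (V := V) M hM (Polynomial.X + Polynomial.C 1) P τ ?_
  filter_upwards [h2] with n hn x hx
  have e : (Polynomial.C 2048 * P).eval n = 2048 * P.eval n := by simp
  have e2 : (Polynomial.X + Polynomial.C 1 : Polynomial ℕ).eval n = n + 1 := by simp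
  have e3 : (Polynomial.X : Polynomial ℕ).eval n = n := by simp
  have h4 := W246.AMNP.am_err (hL x)
  have h5 := W446.AMAMP.task (P.eval n) (fun w => ∃ y : List Bool, y.length ≤ P.eval x.length ∧
    V (pairBits w (pairBits y x)) = [true]) (x ∈ L) (by
    rw [hx] at h4 ⊢
    exact h4)
  have h6 := hn.2 x hx (x ∈ L) (by
    rw [e]
    unfold AccV
    rw [hx] at h5 ⊢
    exact h5)
  rw [e, e3] at h6
  rw [← W246.AMNP.card_fin_filter (4 * τ.eval n) (fun i : ℕ =>
    ¬ (W246.AMNP.Acc M P (join A (spr O b)) (sample (join A (spr O b))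
      ((Polynomial.X + Polynomial.C 1 : Polynomial ℕ).eval n) n (2048 * P.eval n) i) x ↔ x ∈ L))]
  refine lt_of_le_of_lt (le_of_eq ?_) h6
  congr 1
  ext i
  rw [mem_filter, mem_filter]
  refine and_congr_right fun _ => not_congr ?_
  rw [acc_iff hM, e2, sample_join A O b i.2 (by
    rw [hb]
    simp only [Polynomial.eval_mul, Polynomial.eval_C]
    exact le_of_eq (by ring))]

/-- **`AM/poly` is in `NP/poly`.** -/
theorem np_advice {A : Oracle} {L : Set (List Bool)} (h : WithAdvice (IsAM A) L) :
    WithAdvice (IsNP A) L := by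
  obtain ⟨L', a, r, h1, h2, h3⟩ := h
  obtain ⟨S, p, hS, h4⟩ := am_sparse h1
  have h5 : WithAdvice (IsNP (join A S)) L := ⟨L', a, r, h4, h2, h3⟩
  obtain ⟨L'', a', r', h6, h7, h8⟩ := (nppoly_iff (sparseS_join hS A) _).1 h5
  exact ⟨L'', a', r', Pool.Agent.TH707.SP.isNP_subst (Pool.Agent.TH707.SP.isFP_emp A) h6, h7, h8⟩

/-- the random string is all that the verifier uses -/
theorem isAM_of_bpp {A : Oracle} {L : Set (List Bool)} (h : IsBPP A L) : IsAM A L := by
  obtain ⟨V, p, hV, hL⟩ := h
  refine ⟨fun z => V (pairBits (unpair z).1 (unpair (unpair z).2).2), p, ?_, fun x => ?_⟩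
  · exact hV.precomp (poly_pairBits (Poly.fst poly_unpair) (Poly.snd (poly_unpair.comp (Poly.snd poly_unpair))))
  · have h1 : amPr (fun z => V (pairBits (unpair z).1 (unpair (unpair z).2).2))
        (p.eval x.length) x = accPr V (p.eval x.length) x := by
      unfold amPr accPr
      congr 2
      apply Nat.card_congr
      refine Equiv.subtypeEquivRight fun w => ?_
      simp only [unpair_pairBits]
      exact ⟨fun ⟨_, _, h⟩ => h, fun h => ⟨[], Nat.zero_le _, h⟩⟩
    rw [h1]
    obtain ⟨h2, h3⟩ := hL x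
    have h4 : (1 : ℝ) / 2 ^ (x.length + 2) ≤ 1 / 4 := by
      rw [div_le_div_iff₀ (by positivity) (by norm_num), one_mul, one_mul]
      calc (4 : ℝ) = 2 ^ 2 := by norm_num
        _ ≤ 2 ^ (x.length + 2) := pow_le_pow_right₀ (by norm_num) (by omega)
    constructor
    · intro hx
      have := h2 hx
      linarith
    · intro hx
      have := h3 hx
      linarith

/-- `AM` is in `NP/poly` -/
theorem np_advice_am {A : Oracle} {L : Set (List Bool)} (h : IsAM A L) :
    WithAdvice (IsNP A) L := by
  obtain ⟨S, p, hS, h4⟩ := am_sparse h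
  obtain ⟨L'', a', r', h6, h7, h8⟩ := (nppoly_iff (sparseS_join hS A) _).1 h4.withAdvice
  exact ⟨L'', a', r', Pool.Agent.TH707.SP.isNP_subst (Pool.Agent.TH707.SP.isFP_emp A) h6, h7, h8⟩

/-- `P` is in `AM/poly` -/
theorem withAdvice_am {A : Oracle} {L : Set (List Bool)} (h : IsP A L) :
    WithAdvice (IsAM A) L := by
  obtain ⟨V, hV, hL⟩ := h
  refine ⟨{z | (unpair z).1 ∈ L}, fun _ => [], 0, ?_, fun n => by simp, fun x => by
    simp [unpair_pairBits]⟩
  exact isAM_of_bpp (W900.RB.isBPP_of_isP ⟨fun z => V (unpair z).1,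
    hV.precomp (Poly.fst poly_unpair), fun z => hL _⟩)

end Pool.Agent.TH707.AM
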