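import Pool.Agent.TH683.GP.NullBPP
import Pool.Agent.W246.AMAMNP
import Pool.Agent.W381.AM.MANPb
import Pool.Agent.W446.AMAMP

/-!
# The oracles with `AM ⊄ NP` or `MA ⊄ NP`: null sets
-/

set_option autoImplicit false

namespace Pool.Agent.TH707.AM

open Filter MeasureTheory Finset
open Pool.Agent.NPC Pool.Agent.H622R2
open Pool.Agent.H620R2.Gauge hiding smp
open Pool.Agent.H628R3.RO (randomOracle)
open Pool.Agent.W900 Pool.Agent.W900.RB Pool.Agent.TH683.GP Pool.Agent.W895.MA

/-- the bad events for a predicate -/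
noncomputable def EA (Acc : Oracle → List Bool → List Bool → Prop) (q p : Polynomial ℕ) (C n : ℕ) :
    Set Oracle :=
  BadR Acc n (q.eval n) (p.eval n) 0 ((tauG q C).eval n)

theorem EA_local (Acc : Oracle → List Bool → List Bool → Prop) (q p : Polynomial ℕ) (C n : ℕ)
    (A B : Oracle)
    (h : ∀ y : List Bool, y.length ≤ (q + Polynomial.X + Polynomial.C 1).eval n →
      A y = B y) (hA : A ∈ EA Acc q p C n) : B ∈ EA Acc q p C n := by
  classical
  have hev : (q + Polynomial.X + Polynomial.C 1).eval n = q.eval n + n + 1 := by simp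
  rw [hev] at h
  obtain ⟨x, A', b, hx, hd, hr, hτ⟩ := hA
  refine ⟨x, A', b, hx, ?_, hr, ?_⟩
  · have h1 : CH.dist B A' (q.eval n) = CH.dist A A' (q.eval n) := by
      unfold CH.dist
      congr 1
      ext y
      simp only [Set.mem_ofPred_eq]
      constructor
      · rintro ⟨h8, h9⟩
        exact ⟨h8, by rw [h y (by omega)]; exact h9⟩
      · rintro ⟨h8, h9⟩
        exact ⟨h8, by rw [← h y (by omega)]; exact h9⟩
    rw [h1]
    exact hd
  · have h1 : ∀ i, sample B (q.eval n) n (p.eval n) i =
        sample A (q.eval n) n (p.eval n) i := by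
      intro i
      unfold sample
      congr 1
      funext j
      exact (h _ (by rw [length_smp]; omega)).symm
    simp only [h1]
    convert hτ

/-- the bad events are null sets -/
theorem null_EA {f : ℕ → ℝ} {C : ℕ}
    (hC : ∀ᶠ N : ℕ in atTop, ∃ N' ≥ N, f N' ≤ (Real.logb 2 N) ^ C)
    (Acc : Oracle → List Bool → List Bool → Prop) (q p : Polynomial ℕ) (hq : ∀ n, n ≤ q.eval n)
    (hloc : ∀ (n : ℕ) (A A' : Oracle) (r x : List Bool), x.length = n →
      (∀ y : List Bool, y.length ≤ q.eval n → A y = A' y) → (Acc A r x ↔ Acc A' r x)) :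
    Null f {A | ∃ᶠ n : ℕ in atTop, A ∈ EA Acc q p C n} := by
  refine null_limsup hC (q + Polynomial.X + Polynomial.C 1) (fun n => ?_)
      (EA Acc q p C) (EA_local Acc q p C) ?_
  · have := hq n
    simp only [Polynomial.eval_add, Polynomial.eval_X, Polynomial.eval_C]
    omega
  · filter_upwards [H529R3.Lev.poly_le_two_pow (Polynomial.C 4 * tauG q C * p)]
      with n hn
    have hn' : 4 * (tauG q C).eval n * p.eval n ≤ 2 ^ n := by simpa using hn
    have h2 := badR_le (Acc := Acc) (n := n)
      (q := q.eval n) (p := p.eval n) (K := 0) (τ := (tauG q C).eval n)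
      (fun A A' r x hx _ h => hloc n A A' r x hx h) hn'
    refine (le_of_eq rfl).trans (h2.trans ?_)
    have hev : (q + Polynomial.X + Polynomial.C 1).eval n + 1 =
        q.eval n + n + 2 := by simp
    rw [hev, eval_tauG, mul_zero, add_zero]
    set R := (q.eval n + n + 2) ^ C with hR
    have h3 : (2 : ℝ) ^ (n + 1) / 2 ^ (4 * (R + n + 1)) ≤ (1 / 2) ^ (R + n) := by
      rw [div_le_iff₀ (by positivity)]
      have h4 : (1 / 2 : ℝ) ^ (R + n) * 2 ^ (4 * (R + n + 1)) =
          2 ^ (4 * (R + n + 1) - (R + n)) := by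
        rw [pow_sub₀ _ (by norm_num) (by omega), one_div, inv_pow]
        ring
      rw [h4]
      exact pow_le_pow_right₀ (by norm_num) (by omega)
    refine (ENNReal.ofReal_le_ofReal h3).trans (le_of_eq ?_)
    rw [ENNReal.ofReal_pow (by norm_num)]
    congr 1
    rw [one_div, ENNReal.ofReal_inv_of_pos (by norm_num)]
    simp

open Classical in
/-- outside the bad events the votes are right -/
theorem votes_of_not_bad {Acc : Oracle → List Bool → List Bool → Prop} {q p : Polynomial ℕ}
    {C n : ℕ} {A : Oracle} (hA : A ∉ EA Acc q p C n) {x : List Bool} (hx : x.length = n) (b : Prop)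
    (hb : 256 * Nat.card {r : Fin (p.eval n) → Bool // ¬ (Acc A (List.ofFn r) x ↔ b)} ≤
      2 ^ p.eval n) :
    (univ.filter fun i : Fin (4 * (tauG q C).eval n) =>
      ¬ (Acc A (sample A (q.eval n) n (p.eval n) i) x ↔ b)).card < 2 * (tauG q C).eval n := by
  by_contra h2
  rw [not_lt] at h2
  apply hA
  refine ⟨x, A, b, hx, ?_, ?_, ?_⟩
  · unfold CH.dist
    simp
  · exact hb
  · refine le_trans ?_ (h2.trans (le_of_eq ?_))
    · omega
    · congr 1

open Classical in
/-- The oracles with `AM ⊄ NP` form a null set. -/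
theorem null_am {f : ℕ → ℝ} (hf : Cond1 f) :
    Null f {A : Oracle | ∃ L, IsAM A L ∧ ¬ IsNP A L} := by
  obtain ⟨C, hC⟩ := hf
  have hc := CC.poly_countable
  have h1 : ∀ θ : Alg × Polynomial ℕ, Null f {A | ∃ᶠ n : ℕ in atTop,
      A ∈ EA (fun A r x => W246.AMNP.Acc θ.1 θ.2 A r x) (W246.AMNP.qA θ.1 θ.2)
        (Polynomial.C 2048 * θ.2) C n} := by
    rintro ⟨M, P⟩
    exact null_EA hC _ _ _ (W246.AMNP.qA_ge M P)
      (fun n A A' r x hx hy => W246.AMNP.acc_local M P n A A' r x hx hy)
  refine (null_iUnion _ h1).mono ?_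
  rintro A ⟨L, ⟨V, P, ⟨M, hM⟩, hL⟩, hNP⟩
  rw [Set.mem_iUnion]
  refine ⟨(M, P), ?_⟩
  by_contra hcon
  rw [Set.mem_ofPred_eq, not_frequently] at hcon
  apply hNP
  refine W246.AMNP.isNP_of_votes (V := V) M hM (W246.AMNP.qA M P) P
    (tauG (W246.AMNP.qA M P) C) ?_
  filter_upwards [hcon] with n h1 x hx
  have e : (Polynomial.C 2048 * P).eval n = 2048 * P.eval n := by simp
  have h4 := W246.AMNP.am_err (hL x)
  have h2 := W446.AMAMP.task (P.eval n) (W246.AMNP.Ok M P A x) (x ∈ L) (by
    unfold W246.AMNP.Ok
    simp only [hM, Option.some.injEq]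
    rw [hx] at h4 ⊢
    exact h4)
  have h3 : 256 * Nat.card {r : Fin ((Polynomial.C 2048 * P).eval n) → Bool //
      ¬ (W246.AMNP.Acc M P A (List.ofFn r) x ↔ (x ∈ L))} ≤
        2 ^ ((Polynomial.C 2048 * P).eval n) := by
    rw [e]
    unfold W246.AMNP.Acc
    rw [hx]
    exact h2
  have h5 := votes_of_not_bad h1 hx (x ∈ L) h3
  rw [e] at h5
  rw [← W246.AMNP.card_fin_filter (4 * (tauG (W246.AMNP.qA M P) C).eval n) (fun i : ℕ =>
        ¬ (W246.AMNP.Acc M P A (sample A ((W246.AMNP.qA M P).eval n) n (2048 * P.eval n) i) x ↔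
          x ∈ L))]
  convert h5

open Classical in
/-- The oracles with `MA ⊄ NP` form a null set. -/
theorem null_ma {f : ℕ → ℝ} (hf : Cond1 f) :
    Null f {A : Oracle | ∃ L, IsMA A L ∧ ¬ IsNP A L} := by
  obtain ⟨C, hC⟩ := hf
  have hc := CC.poly_countable
  have h1 : ∀ θ : Alg × Polynomial ℕ, Null f {A | ∃ᶠ n : ℕ in atTop,
      A ∈ EA (W381.AM.Acc θ.1 θ.2) (qPol θ.1 θ.2) (Polynomial.C 2048 * θ.2) C n} := by
    rintro ⟨M, p⟩
    exact null_EA hC _ _ _ (qPol_ge M p)
      (fun n A A' r x hx hy => W381.AM.Acc_loc M p n A A' r x hx hy)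
  refine (null_iUnion _ h1).mono ?_
  rintro A ⟨L, ⟨V, p, ⟨M, hM⟩, hL⟩, hNP⟩
  rw [Set.mem_iUnion]
  refine ⟨(M, p), ?_⟩
  by_contra hcon
  rw [Set.mem_ofPred_eq, not_frequently] at hcon
  apply hNP
  obtain ⟨n₂, hn₂⟩ := Filter.eventually_atTop.1 hcon
  have hcnt : ∀ (z : List Bool) (b : Prop), n₂ ≤ z.length →
      3 * Nat.card {w : Fin (p.eval (unpair z).2.length) → Bool //
        ¬ (M.out A (pairBits (List.ofFn w) z) = some [true] ↔ b)} ≤
          2 ^ (p.eval (unpair z).2.length) →
      (univ.filter fun i : Fin (4 * (tauG (qPol M p) C).eval z.length) =>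
        ¬ (W381.AM.Gm V p (pairBits (sample A ((qPol M p).eval z.length) z.length
          ((Polynomial.C 2048 * p).eval z.length) i) z) = [true] ↔ b)).card <
            2 * (tauG (qPol M p) C).eval z.length := by
    intro z b hz hb
    have h1 := votes_of_not_bad (hn₂ z.length hz) rfl b
      (W381.AM.card_cond W446.AMAMP.task M p A z b hb)
    refine lt_of_le_of_lt (le_of_eq ?_) h1
    congr 1
    ext i
    rw [mem_filter, mem_filter]
    refine and_congr_right fun _ => not_congr ?_
    have h2 : 2048 * p.eval (unpair z).2.length ≤ (sample A ((qPol M p).eval z.length) z.length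
        ((Polynomial.C 2048 * p).eval z.length) i).length := by
      unfold sample
      rw [List.length_ofFn]
      have eP : (Polynomial.C 2048 * p).eval z.length = 2048 * p.eval z.length := by simp
      rw [eP]
      exact Nat.mul_le_mul_left _ (eval_mono p (length_unpair_snd z))
    rw [W381.AM.Gm_iff h2]
    have h3 : ∀ z, (M.out A z = some [true] ↔ V z = [true]) := by
      intro z
      rw [hM z, Option.some.injEq]
    unfold W381.AM.Acc
    simp only [h3]
  have hlen : ∀ y x : List Bool, x.length ≤ (pairBits y x).length := by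
    intro y x
    rw [A2.length_pairBits]
    omega
  refine W381.AM.isNP_of_votes (V := W381.AM.Gm V p) (W381.AM.isFP_Gm ⟨M, hM⟩ p) p (qPol M p)
    (Polynomial.C 2048 * p) (tauG (qPol M p) C) n₂ ?_ ?_
  · intro x hx hxL
    obtain ⟨y, hy, h1⟩ := (hL x).1 hxL
    refine ⟨y, hy, ?_⟩
    have h2 := (W381.AM.prob_cond hM (p.eval x.length) (pairBits y x)).1 h1
    have h3 := hcnt (pairBits y x) True (hx.trans (hlen y x)) (by
      have e : (unpair (pairBits y x)).2 = x := by rw [unpair_pairBits]
      rw [e]
      exact h2)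
    have h4 := card_filter_add_card_filter_not
      (s := (univ : Finset (Fin (4 * (tauG (qPol M p) C).eval (pairBits y x).length))))
      (fun i => W381.AM.Gm V p (pairBits (sample A ((qPol M p).eval (pairBits y x).length)
        (pairBits y x).length ((Polynomial.C 2048 * p).eval (pairBits y x).length) i)
          (pairBits y x)) = [true])
    rw [card_univ, Fintype.card_fin] at h4
    simp only [iff_true] at h3
    unfold W381.AM.cnt
    have h5 : (univ.filter fun i : Fin (4 * (tauG (qPol M p) C).eval (pairBits y x).length) =>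
      W381.AM.Gm V p (pairBits (sample A ((qPol M p).eval (pairBits y x).length)
        (pairBits y x).length ((Polynomial.C 2048 * p).eval (pairBits y x).length) i)
          (pairBits y x)) = [true]).card +
        (univ.filter fun i : Fin (4 * (tauG (qPol M p) C).eval (pairBits y x).length) =>
      ¬ W381.AM.Gm V p (pairBits (sample A ((qPol M p).eval (pairBits y x).length)
        (pairBits y x).length ((Polynomial.C 2048 * p).eval (pairBits y x).length) i)
          (pairBits y x)) = [true]).card = 4 * (tauG (qPol M p) C).eval (pairBits y x).length := by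
      convert h4
    have h6 : (univ.filter fun i : Fin (4 * (tauG (qPol M p) C).eval (pairBits y x).length) =>
      ¬ W381.AM.Gm V p (pairBits (sample A ((qPol M p).eval (pairBits y x).length)
        (pairBits y x).length ((Polynomial.C 2048 * p).eval (pairBits y x).length) i)
          (pairBits y x)) = [true]).card < 2 * (tauG (qPol M p) C).eval (pairBits y x).length := by
      convert h3
    omega
  · intro x hx hxL y hy
    have h1 := (hL x).2 hxL y hy
    have h2 := (W381.AM.prob_cond hM (p.eval x.length) (pairBits y x)).2 h1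
    have h3 := hcnt (pairBits y x) False (hx.trans (hlen y x)) (by
      have e : (unpair (pairBits y x)).2 = x := by rw [unpair_pairBits]
      rw [e]
      exact h2)
    simp only [iff_false, not_not] at h3
    unfold W381.AM.cnt
    have h6 : (univ.filter fun i : Fin (4 * (tauG (qPol M p) C).eval (pairBits y x).length) =>
      W381.AM.Gm V p (pairBits (sample A ((qPol M p).eval (pairBits y x).length)
        (pairBits y x).length ((Polynomial.C 2048 * p).eval (pairBits y x).length) i)
          (pairBits y x)) = [true]).card < 2 * (tauG (qPol M p) C).eval (pairBits y x).length := by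
      convert h3
    omega

end Pool.Agent.TH707.AM
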