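import Pool.Agent.TH683.GP.Stages
import Pool.Agent.W900.CH.Trans

/-!
# Stage constructions with changed strings which depend on the oracle
-/

set_option autoImplicit false

namespace Pool.Agent.TH707.AM

open Filter
open Pool.Agent.NPC Pool.Agent.H622R2
open Pool.Agent.H620R2.Gauge hiding smp
open Pool.Agent.W900.RB
open Pool.Agent.W900.CH (diffN)
open Pool.Agent.TH683.GP

theorem card_fam (b c : ℕ) :
    ((Finset.range (2 ^ (b + 1))).powerset.filter (fun D => D.card ≤ c)).card ≤
      2 ^ ((b + 2) * c) := by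
  refine (W900.CH.card_small _ _).trans ?_
  rw [pow_mul]
  refine Nat.pow_le_pow_left ?_ _
  have h1 : 1 ≤ 2 ^ (b + 1) := Nat.one_le_two_pow
  rw [pow_succ 2 (b + 1)]
  omega

/-- stages: the numbers `n k` and the families of the sets of changed strings do not depend on the
oracle -/
theorem dstages {f : ℕ → ℝ} (hf : ¬ Cond1 f) (W : ℕ → ℕ → Oracle → Prop) (Cl : ℕ → Oracle → Prop)
    (cost b : ℕ → Polynomial ℕ) (N₀ : ℕ)
    (hcl : ∀ (n : ℕ) (O B : Oracle), (∀ y ∈ Region n, B y = O y) → Cl n O → Cl n B)
    (hW : ∀ k, ∀ᶠ n : ℕ in atTop, ∀ B : Oracle, Cl n B → ∃ B' : Oracle,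
      (∀ y ∉ Region n, B' y = B y) ∧ {y | B y ≠ B' y}.Finite ∧
      {y | B y ≠ B' y}.ncard ≤ (cost k).eval n ∧
      ∀ B'' : Oracle, (∀ y : List Bool, y.length ≤ (b k).eval n → B'' y = B' y) → W k n B'') :
    ∃ (n : ℕ → ℕ) (P : ℕ → Finset (Finset ℕ)) (c : ℝ), StrictMono n ∧ (∀ k, N₀ ≤ n k) ∧
      (∀ N, ((P N).card : ℝ) ≤ 2 ^ (f N + c)) ∧
      ∀ O : Oracle, (∀ k, Cl (n k) O) → ∃ A : Oracle,
        (∀ y, (∀ k, y ∉ Region (n k)) → A y = O y) ∧ (∀ N, diffN O A N ∈ P N) ∧
        ∀ k, W k (n k) A := by
  classical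
  have hf' : ∀ C : ℕ, ∃ᶠ N : ℕ in atTop, ∀ N' ≥ N, (Real.logb 2 N) ^ C < f N' := by
    unfold Cond1 at hf
    push Not at hf
    exact hf
  have hstep : ∀ (k N T : ℕ), ∃ n : ℕ, N ≤ n ∧
      (∀ B : Oracle, Cl n B → ∃ B' : Oracle,
        (∀ y ∉ Region n, B' y = B y) ∧ {y | B y ≠ B' y}.Finite ∧
        {y | B y ≠ B' y}.ncard ≤ (cost k).eval n ∧
        ∀ B'' : Oracle, (∀ y : List Bool, y.length ≤ (b k).eval n → B'' y = B' y) →
          W k n B'') ∧
      ∀ m : ℕ, 2 ^ (n + 1) ≤ m + 1 →
        ((T + ((b k).eval n + 2) * (cost k).eval n : ℕ) : ℝ) ≤ f m := by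
    intro k N T
    set Q : Polynomial ℕ := (b k + Polynomial.C 2) * cost k with hQ
    have hQe : ∀ n, Q.eval n = ((b k).eval n + 2) * (cost k).eval n := by
      intro n
      rw [hQ, Polynomial.eval_mul, Polynomial.eval_add, Polynomial.eval_C]
    have h1 : ∀ᶠ n : ℕ in atTop, T + Q.eval n ≤ n ^ (Q.natDegree + 1) := by
      have h2 : ∀ᶠ n : ℕ in atTop, T + Q.eval 1 ≤ n := eventually_ge_atTop _
      filter_upwards [h2, eventually_ge_atTop 1] with n h3 h4
      have h5 : Q.eval n ≤ Q.eval 1 * n ^ Q.natDegree := by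
        rw [Polynomial.eval_eq_sum_range, Polynomial.eval_eq_sum_range, Finset.sum_mul]
        apply Finset.sum_le_sum
        intro i hi
        rw [one_pow, mul_one]
        apply Nat.mul_le_mul_left
        exact Nat.pow_le_pow_right h4 (by have := Finset.mem_range.1 hi; omega)
      have h6 : 1 ≤ n ^ Q.natDegree := Nat.one_le_pow _ _ h4
      calc T + Q.eval n ≤ T * n ^ Q.natDegree +
            Q.eval 1 * n ^ Q.natDegree :=
            Nat.add_le_add (Nat.le_mul_of_pos_right _ h6) h5
        _ = (T + Q.eval 1) * n ^ Q.natDegree := by ring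
        _ ≤ n * n ^ Q.natDegree := Nat.mul_le_mul_right _ h3
        _ = n ^ (Q.natDegree + 1) := by ring
    have h2 := tendsto_log.eventually (h1.and ((hW k).and (eventually_ge_atTop N)))
    obtain ⟨M, h3, ⟨h4, h6, h7⟩, hM⟩ := ((hf' (Q.natDegree + 1)).and_eventually
      (h2.and (eventually_ge_atTop 1))).exists
    refine ⟨Nat.log 2 M, h7, h6, fun m hm => ?_⟩
    have h8 : M < 2 ^ (Nat.log 2 M + 1) := Nat.lt_pow_succ_log_self (by norm_num) _
    refine le_trans ?_ (h3 m (by omega)).le
    have h9 : (Nat.log 2 M : ℝ) ≤ Real.logb 2 M := Real.natLog_le_logb M 2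
    rw [← hQe]
    calc ((T + Q.eval (Nat.log 2 M) : ℕ) : ℝ) ≤
          ((Nat.log 2 M ^ (Q.natDegree + 1) : ℕ) : ℝ) := by exact_mod_cast h4
      _ = (Nat.log 2 M : ℝ) ^ (Q.natDegree + 1) := by push_cast; rfl
      _ ≤ (Real.logb 2 M) ^ (Q.natDegree + 1) := by gcongr
  choose ns h1 h3 h6 using hstep
  -- the states: the bound for the next number, the logarithm of the number of the families
  let F : ℕ → ℕ × ℕ := fun k => Nat.rec (N₀, 0) (fun k s =>
    (max (ns k s.1 s.2 + 1) ((b k).eval (ns k s.1 s.2) + 1),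
      s.2 + ((b k).eval (ns k s.1 s.2) + 2) * (cost k).eval (ns k s.1 s.2))) k
  let n : ℕ → ℕ := fun k => ns k (F k).1 (F k).2
  have hF2 : ∀ k, (F (k + 1)).1 = max (n k + 1) ((b k).eval (n k) + 1) := fun k => rfl
  have hF3 : ∀ k, (F (k + 1)).2 = (F k).2 + ((b k).eval (n k) + 2) * (cost k).eval (n k) :=
    fun k => rfl
  have hnN : ∀ k, (F k).1 ≤ n k := fun k => h1 _ _ _
  have hn3 : ∀ k, ∀ B : Oracle, Cl (n k) B → ∃ B' : Oracle,
        (∀ y ∉ Region (n k), B' y = B y) ∧ {y | B y ≠ B' y}.Finite ∧
        {y | B y ≠ B' y}.ncard ≤ (cost k).eval (n k) ∧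
        ∀ B'' : Oracle, (∀ y : List Bool, y.length ≤ (b k).eval (n k) → B'' y = B' y) →
          W k (n k) B'' := fun k => h3 _ _ _
  have hn6 : ∀ k, ∀ m : ℕ, 2 ^ (n k + 1) ≤ m + 1 → ((F (k + 1)).2 : ℝ) ≤ f m :=
    fun k m hm => h6 k (F k).1 (F k).2 m hm
  -- the changed oracles, truncated
  have hn4 : ∀ k, ∀ B : Oracle, ∃ (B' : Oracle) (D : Finset ℕ),
        (∀ y ∉ Region (n k), B' y = B y) ∧
        D ∈ (Finset.range (2 ^ ((b k).eval (n k) + 1))).powerset.filter
          (fun D => D.card ≤ (cost k).eval (n k)) ∧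
        (∀ i, i ∈ D ↔ B (str i) ≠ B' (str i)) ∧
        (Cl (n k) B → ∀ B'' : Oracle, (∀ y : List Bool, y.length ≤ (b k).eval (n k) →
          B'' y = B' y) → W k (n k) B'') := by
    intro k B
    by_cases hB : Cl (n k) B
    · obtain ⟨B', h7, h8, h9, h10⟩ := hn3 k B hB
      set B₁ : Oracle := fun y => if y.length ≤ (b k).eval (n k) then B' y else B y with hB₁
      have hfin : {y | B y ≠ B₁ y} ⊆ {y | B y ≠ B' y} := by
        intro y hy
        rw [Set.mem_ofPred_eq, hB₁] at hy
        dsimp only at hy
        split_ifs at hy with h11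
        · exact hy
        · exact absurd rfl hy
      have hsh : ∀ y, B y ≠ B₁ y → y.length ≤ (b k).eval (n k) := by
        intro y hy
        by_contra hcon
        apply hy
        rw [hB₁]
        dsimp only
        rw [if_neg hcon]
      have hf1 : {y | B y ≠ B₁ y}.Finite := h8.subset hfin
      refine ⟨B₁, hf1.toFinset.image idx, ?_, ?_, ?_, ?_⟩
      · intro y hy
        rw [hB₁]
        dsimp only
        split_ifs
        · exact h7 y hy
        · rfl
      · rw [Finset.mem_filter, Finset.mem_powerset]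
        constructor
        · intro i hi
          rw [Finset.mem_image] at hi
          obtain ⟨y, hy, rfl⟩ := hi
          rw [Set.Finite.mem_toFinset] at hy
          rw [Finset.mem_range]
          have h11 := Pool.Agent.H620R2.Gauge.idx_lt y
          refine lt_of_lt_of_le ?_ (Nat.pow_le_pow_right (by norm_num)
            (Nat.succ_le_succ (hsh y hy)))
          omega
        · refine Finset.card_image_le.trans ?_
          rw [← Set.ncard_eq_toFinset_card _ hf1]
          exact (Set.ncard_le_ncard hfin h8).trans h9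
      · intro i
        rw [Finset.mem_image]
        constructor
        · rintro ⟨y, hy, rfl⟩
          rw [Set.Finite.mem_toFinset] at hy
          rw [str_idx]
          exact hy
        · intro h
          exact ⟨str i, (Set.Finite.mem_toFinset _).2 h, idx_str i⟩
      · intro _ B'' hB''
        apply h10
        intro y hy
        rw [hB'' y hy, hB₁]
        dsimp only
        rw [if_pos hy]
    · refine ⟨B, ∅, fun _ _ => rfl, ?_, ?_, fun h => absurd h hB⟩
      · simp
      · simp
  choose Bs Ds h4 h5 h7 h8 using hn4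
  have hlt : ∀ k, n k < n (k + 1) := by
    intro k
    have := hnN (k + 1)
    rw [hF2] at this
    have := le_max_left (n k + 1) ((b k).eval (n k) + 1)
    omega
  have hmono : StrictMono n := strictMono_nat_of_lt_succ hlt
  have hid : ∀ k, k ≤ n k := fun k => hmono.le_apply
  let G : Oracle → ℕ → Oracle := fun B k => Nat.rec B (fun k s => Bs k s) k
  have hG0 : ∀ B, G B 0 = B := fun B => rfl
  have hG1 : ∀ B k, G B (k + 1) = Bs k (G B k) := fun B k => rfl
  have hagree1 : ∀ (B : Oracle) (j : ℕ) (y : List Bool), y.length ≤ n j →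
      G B (j + 1) y = G B j y := by
    intro B j y hy
    rw [hG1]
    apply h4
    intro hr
    have := region_len hr
    omega
  have hagree : ∀ (B : Oracle) (j i : ℕ) (y : List Bool), y.length ≤ n j →
      G B (j + i) y = G B j y := by
    intro B j i y hy
    induction i with
    | zero => rfl
    | succ i ih =>
      rw [← ih, ← add_assoc]
      apply hagree1
      exact hy.trans (hmono.monotone (Nat.le_add_right j i))
  set Φ : Oracle → Oracle := fun B y => G B y.length y with hΦ
  have hAj : ∀ (B : Oracle) (j : ℕ) (y : List Bool), y.length ≤ n j → Φ B y = G B j y := by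
    intro B j y hy
    rw [hΦ]
    dsimp only
    rcases le_total y.length j with h | h
    · obtain ⟨i, hi⟩ := Nat.exists_eq_add_of_le h
      rw [hi]
      exact (hagree B y.length i y (hid _)).symm
    · obtain ⟨i, hi⟩ := Nat.exists_eq_add_of_le h
      rw [hi]
      exact hagree B j i y hy
  -- the new region is unchanged before
  have hold : ∀ (B : Oracle) (k j : ℕ), j ≤ k → ∀ y ∈ Region (n k), G B j y = B y := by
    intro B k j hj y hy
    induction j with
    | zero => rfl
    | succ j ih =>
      rw [← ih (by omega), hG1]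
      apply h4
      intro hr
      have h9 : n k = n j := region_inj hy hr
      have h10 := hmono (show j < k by omega)
      omega
  -- the families
  let PP : ℕ → Finset (Finset ℕ) := fun k => Nat.rec {∅} (fun k s =>
    Finset.image₂ symmDiff s ((Finset.range (2 ^ ((b k).eval (n k) + 1))).powerset.filter
          (fun D => D.card ≤ (cost k).eval (n k)))) k
  have hPP1 : ∀ k, PP (k + 1) = Finset.image₂ symmDiff (PP k)
    ((Finset.range (2 ^ ((b k).eval (n k) + 1))).powerset.filter
          (fun D => D.card ≤ (cost k).eval (n k))) := fun k => rfl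
  have hPPc : ∀ k, (PP k).card ≤ 2 ^ (F k).2 := by
    intro k
    induction k with
    | zero => simp [PP, F]
    | succ k ih =>
      rw [hPP1, hF3, pow_add 2 (F k).2]
      refine (Finset.card_image₂_le _ _ _).trans ?_
      exact Nat.mul_le_mul ih (card_fam _ _)
  let DD : Oracle → ℕ → Finset ℕ := fun B k => Nat.rec ∅ (fun k s => symmDiff s (Ds k (G B k))) k
  have hDD1 : ∀ B k, DD B (k + 1) = symmDiff (DD B k) (Ds k (G B k)) := fun B k => rfl
  have hDDm : ∀ B k, DD B k ∈ PP k := by
    intro B k
    induction k with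
    | zero => simp [PP, DD]
    | succ k ih =>
      rw [hPP1, hDD1]
      exact Finset.mem_image₂_of_mem ih (h5 k _)
  have hDDi : ∀ B k i, i ∈ DD B k ↔ G B k (str i) ≠ B (str i) := by
    intro B k i
    induction k with
    | zero => simp [DD, hG0]
    | succ k ih =>
      rw [hDD1, Finset.mem_symmDiff, ih, h7, ← hG1]
      generalize G B k (str i) = u
      generalize G B (k + 1) (str i) = v
      generalize B (str i) = w
      revert u v w
      decide
  have hex : ∀ N : ℕ, ∃ k, N + 1 ≤ 2 ^ (n k + 1) := by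
    intro N
    refine ⟨N, ?_⟩
    have h7 : N + 1 < 2 ^ (N + 1) := Nat.lt_two_pow_self
    exact h7.le.trans (Nat.pow_le_pow_right (by norm_num) (by have := hid N; omega))
  refine ⟨n, fun N => (PP (Nat.find (hex N))).image (fun D => D.filter (fun i => i < N)),
    ∑ i ∈ Finset.range (2 ^ (n 0 + 1)), |f i|, hmono, ?_, ?_, ?_⟩
  · intro k
    have h7 : N₀ ≤ n 0 := hnN 0
    exact h7.trans (hmono.monotone (Nat.zero_le k))
  · intro N
    set K := Nat.find (hex N) with hK
    have hKspec : N + 1 ≤ 2 ^ (n K + 1) := Nat.find_spec (hex N)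
    have hKmin : ∀ j < K, 2 ^ (n j + 1) < N + 1 :=
      fun j hj => not_le.1 (Nat.find_min (hex N) hj)
    have hsum : (0 : ℝ) ≤ ∑ i ∈ Finset.range (2 ^ (n 0 + 1)), |f i| :=
      Finset.sum_nonneg fun i _ => abs_nonneg _
    have hc1 : ((PP K).card : ℝ) ≤ 2 ^ ((F K).2 : ℝ) := by
      rw [Real.rpow_natCast]
      exact_mod_cast hPPc K
    have hc2 : (((PP K).image (fun D => D.filter (fun i => i < N))).card : ℝ) ≤
        ((PP K).card : ℝ) := by exact_mod_cast Finset.card_image_le
    refine hc2.trans (hc1.trans ?_)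
    refine Real.rpow_le_rpow_of_exponent_le (by norm_num) ?_
    rcases Nat.eq_zero_or_pos K with h9 | h9
    · have h10 : (F K).2 = 0 := by
        rw [h9]
        rfl
      rw [h10]
      rw [h9] at hKspec
      have h11 : |f N| ≤ ∑ i ∈ Finset.range (2 ^ (n 0 + 1)), |f i| :=
        Finset.single_le_sum (f := fun i => |f i|) (fun i _ => abs_nonneg _)
          (Finset.mem_range.2 hKspec)
      have h12 := neg_abs_le (f N)
      push_cast
      linarith
    · obtain ⟨j, hj⟩ := Nat.exists_eq_succ_of_ne_zero h9.ne'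
      have h10 := hn6 j N (hKmin j (by omega)).le
      rw [hj]
      exact h10.trans (by linarith)
  · intro O hO
    refine ⟨Φ O, ?_, ?_, ?_⟩
    · intro y hy
      have h9 : ∀ j, G O j y = O y := by
        intro j
        induction j with
        | zero => rfl
        | succ j ih =>
          rw [← ih, hG1]
          exact h4 _ _ y (hy j)
      exact h9 _
    · intro N
      dsimp only
      rw [Finset.mem_image]
      set K := Nat.find (hex N) with hK
      have hKspec : N + 1 ≤ 2 ^ (n K + 1) := Nat.find_spec (hex N)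
      refine ⟨DD O K, hDDm O K, ?_⟩
      ext i
      unfold diffN
      simp only [Finset.mem_filter, Finset.mem_range]
      rw [hDDi, and_comm]
      refine and_congr_right fun hi => ?_
      have h9 : (str i).length ≤ n K := by
        have h10 := W900.CH.length_str_le_log hi
        have h11 : Nat.log 2 N < n K + 1 := by
          rcases Nat.eq_zero_or_pos N with h12 | h12
          · omega
          · exact Nat.log_lt_of_lt_pow (by omega) (by omega)
        omega
      rw [hAj O K _ h9]
    · intro k
      apply h8 k (G O k)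
      · exact hcl _ O _ (hold O k k le_rfl) (hO k)
      · intro y hy
        have h7 : y.length ≤ n (k + 1) := by
          have h8 := hnN (k + 1)
          rw [hF2] at h8
          have h9 := le_max_right (n k + 1) ((b k).eval (n k) + 1)
          omega
        rw [hAj O (k + 1) y h7]

end Pool.Agent.TH707.AM
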