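import Pool.Agent.W886.AM.Fin
import Pool.Agent.TH707.AM.Stages
import Pool.Agent.TH707.AM.NullSide

/-!
# The gauge threshold for the oracles with `AM ⊄ MA`
-/

set_option autoImplicit false

namespace Pool.Agent.TH707.AM

open Pool.Agent.NPC Pool.Agent.H622R2
open Pool.Agent.H620R2.Gauge hiding smp
open Pool.Agent.W900.RB
open Pool.Agent.W895.MA Pool.Agent.W886.AM
open Pool.Agent.H628R3.RO (randomOracle)
open Pool.Agent.TH683.GP
open MeasureTheory Filter

/-- a language in `AM` and not in `MA` -/
theorem sep {O A : Oracle} {N₀ : ℕ} (hN₀ : ∀ n ≥ N₀, ¬ Marked O n) {u : ℕ → Alg × Polynomial ℕ}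
    (hu : Function.Surjective u) {n : ℕ → ℕ} (hn : StrictMono n) (hnN : ∀ k, N₀ ≤ n k)
    (hoff : ∀ y, (∀ k, y ∉ Region (n k)) → A y = O y)
    (hW : ∀ k, WM (u k).1 (u k).2 (n k) A) : ∃ L, IsAM A L ∧ ¬ IsMA A L := by
  classical
  refine ⟨{x | ∃ k, x = List.replicate (n k) true ∧
    ∀ w : List Bool, w.length = rr A (n k) → Wit A (n k) w}, ?_, ?_⟩
  · obtain ⟨V, hV, hVs⟩ := W274.AMAMV.amv A N₀
    refine ⟨V, Polynomial.X, hV, fun x => ?_⟩
    rw [Polynomial.eval_X]
    by_cases hx : ∃ k, x = List.replicate (n k) true
    · obtain ⟨k, rfl⟩ := hx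
      obtain ⟨r, hr, hmark, hrr, hcase⟩ := hW k
      have hmem : (List.replicate (n k) true ∈ {x | ∃ k, x = List.replicate (n k) true ∧
          ∀ w : List Bool, w.length = rr A (n k) → Wit A (n k) w}) ↔
          ∀ w : List Bool, w.length = rr A (n k) → Wit A (n k) w := by
        constructor
        · rintro ⟨k', h5, h6⟩
          have h7 : n k' = n k := by
            have := congrArg List.length h5
            simpa using this.symm
          rw [← hn.injective h7]
          exact h6
        · intro h
          exact ⟨k, rfl, h⟩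
      rw [hmem, hrr]
      have hVx : ∀ w : List Bool, (∃ y : List Bool, y.length ≤ (List.replicate (n k) true).length ∧
          V (pairBits w (pairBits y (List.replicate (n k) true))) = [true]) ↔
          Wit A (n k) (w.take r) := by
        intro w
        constructor
        · rintro ⟨y, -, h5⟩
          have h6 := ((hVs w y _).1 h5).2.2.2.2
          rw [List.length_replicate, hrr] at h6
          exact ⟨y, h6⟩
        · rintro ⟨y, h5⟩
          refine ⟨y, by rw [List.length_replicate]; exact h5.1.le, ?_⟩
          rw [hVs]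
          rw [List.length_replicate, hrr]
          exact ⟨hnN k, rfl, hmark, hr, h5⟩
      have hpr : amPr V (List.replicate (n k) true).length (List.replicate (n k) true) =
          (Nat.card {w : Fin r → Bool // Wit A (n k) (List.ofFn w)} : ℝ) / 2 ^ r := by
        unfold amPr
        have h5 : Nat.card {w : Fin (List.replicate (n k) true).length → Bool //
            ∃ y : List Bool, y.length ≤ (List.replicate (n k) true).length ∧
              V (pairBits (List.ofFn w) (pairBits y (List.replicate (n k) true))) = [true]} =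
            Nat.card {w : Fin (List.replicate (n k) true).length → Bool //
              Wit A (n k) ((List.ofFn w).take r)} := by
          apply Nat.card_congr
          exact Equiv.subtypeEquivRight fun w => hVx _
        have hl : (List.replicate (n k) true).length = n k := List.length_replicate
        rw [h5, card_prefix (fun v => Wit A (n k) v) (r := r) (by rw [hl]; exact hr.le)]
        push_cast
        have h6 : (2 : ℝ) ^ (List.replicate (n k) true).length =
            2 ^ ((List.replicate (n k) true).length - r) * 2 ^ r := by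
          rw [← pow_add]
          congr 1
          rw [hl]
          omega
        rw [h6]
        field_simp
      rw [hpr]
      constructor
      · intro h5
        have h6 : Nat.card {w : Fin r → Bool // Wit A (n k) (List.ofFn w)} = 2 ^ r := by
          have h7 : ∀ w : Fin r → Bool, Wit A (n k) (List.ofFn w) := fun w => h5 _ (by simp)
          rw [Nat.card_congr (Equiv.subtypeUnivEquiv h7), Nat.card_eq_fintype_card,
            Fintype.card_fun, Fintype.card_bool, Fintype.card_fin]
        rw [h6]
        push_cast
        rw [div_self (by positivity)]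
        norm_num
      · intro h5
        rcases hcase with h6 | h6
        · exact absurd h6.1 h5
        · rw [div_le_iff₀ (by positivity)]
          have h7 : (3 : ℝ) * (Nat.card {w : Fin r → Bool // Wit A (n k) (List.ofFn w)} : ℝ) ≤
              2 ^ r := by exact_mod_cast h6.1
          linarith
    · have hno : ∀ w y : List Bool, V (pairBits w (pairBits y x)) ≠ [true] := by
        intro w y h5
        obtain ⟨h6, h7, h8, -⟩ := (hVs w y x).1 h5
        apply hN₀ x.length h6
        intro j hj
        rw [← hoff]
        · exact h8 j hj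
        · intro k hk
          apply hx
          refine ⟨k, ?_⟩
          rw [← region_inj (reg_mem x.length _) hk]
          exact h7
      constructor
      · rintro ⟨k, hk, -⟩
        exact absurd ⟨k, hk⟩ hx
      · intro _
        have h5 : amPr V x.length x = 0 := by
          unfold amPr
          have h6 : IsEmpty {w : Fin x.length → Bool // ∃ y : List Bool, y.length ≤ x.length ∧
              V (pairBits (List.ofFn w) (pairBits y x)) = [true]} := by
            constructor
            rintro ⟨w, y, -, h7⟩
            exact hno _ _ h7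
          rw [Nat.card_eq_zero.2 (Or.inl h6)]
          simp
        rw [h5]
        norm_num
  · rintro ⟨V, p, ⟨M, hM⟩, hV⟩
    obtain ⟨k, hk⟩ := hu (M, p)
    obtain ⟨r, hr, hmark, hrr, hcase⟩ := hW k
    rw [hk] at hcase
    dsimp only at hcase
    have hacc : ∀ y : List Bool, accPr V (p.eval (List.replicate (n k) true).length)
        (pairBits y (List.replicate (n k) true)) =
        (Nat.card {ω : Fin (p.eval (n k)) → Bool // M.out A (pairBits (List.ofFn ω)
          (pairBits y (List.replicate (n k) true))) = some [true]} : ℝ) / 2 ^ p.eval (n k) := by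
      intro y
      unfold accPr
      rw [List.length_replicate]
      congr 2
      apply Nat.card_congr
      refine Equiv.subtypeEquivRight fun w => ?_
      rw [hM, Option.some.injEq]
    have h5 := hV (List.replicate (n k) true)
    have hpos : (0 : ℝ) < 2 ^ p.eval (n k) := by positivity
    rcases hcase with ⟨h6, h7⟩ | ⟨h6, y, h7, h8⟩
    · obtain ⟨y, h8, h9⟩ := h5.1 ⟨k, rfl, by rw [hrr]; exact h6⟩
      rw [List.length_replicate] at h8
      rw [hacc, div_le_div_iff₀ (by norm_num) hpos] at h9
      have h10 : (3 : ℝ) * (Nat.card {ω : Fin (p.eval (n k)) → Bool //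
          M.out A (pairBits (List.ofFn ω) (pairBits y (List.replicate (n k) true))) =
            some [true]} : ℝ) < 2 * 2 ^ p.eval (n k) := by exact_mod_cast h7 y h8
      linarith
    · have h9 : List.replicate (n k) true ∉ {x | ∃ k, x = List.replicate (n k) true ∧
          ∀ w : List Bool, w.length = rr A (n k) → Wit A (n k) w} := by
        rintro ⟨k', h10, h11⟩
        have h12 : n k' = n k := by
          have := congrArg List.length h10
          simpa using this.symm
        rw [hn.injective h12, hrr] at h11
        have h13 : Nat.card {w : Fin r → Bool // Wit A (n k) (List.ofFn w)} = 2 ^ r := by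
          have h14 : ∀ w : Fin r → Bool, Wit A (n k) (List.ofFn w) := fun w => h11 _ (by simp)
          rw [Nat.card_congr (Equiv.subtypeUnivEquiv h14), Nat.card_eq_fintype_card,
            Fintype.card_fun, Fintype.card_bool, Fintype.card_fin]
        rw [h13] at h6
        have : 0 < 2 ^ r := by positivity
        omega
      have h10 := h5.2 h9 y (by rw [List.length_replicate]; exact h7)
      rw [hacc, div_le_div_iff₀ hpos (by norm_num)] at h10
      have h11 : (2 : ℝ) ^ p.eval (n k) < 3 * (Nat.card {ω : Fin (p.eval (n k)) → Bool //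
          M.out A (pairBits (List.ofFn ω) (pairBits y (List.replicate (n k) true))) =
            some [true]} : ℝ) := by exact_mod_cast h8
      linarith


/-- a null set for `f` is a null set for `f + c` -/
theorem null_shift {f : ℕ → ℝ} {S : Set Oracle} (hS : Null f S) (c : ℝ) :
    Null (fun N => f N + c) S := by
  intro δ hδ
  have h2 : (0 : ℝ) < 2 ^ c := by positivity
  obtain ⟨T, hT, hs⟩ := hS (δ / 2 ^ c) (by positivity)
  refine ⟨T, hT, ?_⟩
  have h3 : ∀ σ : T, ENNReal.ofReal ((2 : ℝ) ^ (f σ.1.length + c - σ.1.length)) =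
      ENNReal.ofReal ((2 : ℝ) ^ c) * ENNReal.ofReal ((2 : ℝ) ^ (f σ.1.length - σ.1.length)) := by
    intro σ
    rw [← ENNReal.ofReal_mul h2.le, ← Real.rpow_add (by norm_num)]
    congr 2
    ring
  dsimp only
  rw [tsum_congr h3, ENNReal.tsum_mul_left]
  refine (mul_le_mul' le_rfl hs).trans (le_of_eq ?_)
  rw [← ENNReal.ofReal_mul h2.le]
  congr 1
  field_simp

/-- If the oracles with `AM ⊄ MA` are a null set for `f`, then `f` is polylogarithmic infinitely
often. -/
theorem cond_of_null {f : ℕ → ℝ} (h : Null f {A : Oracle | ∃ L, IsAM A L ∧ ¬ IsMA A L}) :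
    Cond1 f := by
  classical
  by_contra hf
  have h1 := CC.poly_countable
  obtain ⟨al, hal⟩ := exists_alg
  have h2 : Countable Alg := inferInstance
  have h3 : Nonempty (Alg × Polynomial ℕ) := ⟨(al 0, 0)⟩
  obtain ⟨u, hu⟩ := exists_surjective_nat (Alg × Polynomial ℕ)
  choose cost b hT using fun k => (Pool.Agent.W822.AMTASK.task Pool.Agent.W585.AMC.task
    Pool.Agent.W918.AMSETT.task) (u k).1 (u k).2
  have hae : ∀ᵐ O ∂randomOracle, ∃ N₀ : ℕ, ∀ n ≥ N₀, ¬ Marked O n ∧ Clean O n := by
    filter_upwards [ae_marked, Pool.Agent.W209.AMClean.task] with O hO hC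
    exact eventually_atTop.1 (hO.and hC)
  have hex : ∃ N₀ : ℕ, randomOracle {O : Oracle | ∀ n ≥ N₀, ¬ Marked O n ∧ Clean O n} ≠ 0 := by
    by_contra hcon
    push Not at hcon
    have h4 : randomOracle (⋃ N₀ : ℕ, {O : Oracle | ∀ n ≥ N₀, ¬ Marked O n ∧ Clean O n}) = 0 :=
      measure_iUnion_null hcon
    have h5 : ∀ᵐ O ∂randomOracle, False := by
      have h6 : ∀ᵐ O ∂randomOracle,
          O ∉ ⋃ N₀ : ℕ, {O : Oracle | ∀ n ≥ N₀, ¬ Marked O n ∧ Clean O n} :=
        measure_eq_zero_iff_ae_notMem.1 h4
      filter_upwards [h6, hae] with O h7 h8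
      apply h7
      rw [Set.mem_iUnion]
      exact h8
    rw [ae_iff] at h5
    simp at h5
  obtain ⟨N₀, hN₀⟩ := hex
  obtain ⟨n, P, c, hn, hnN, hP, hA⟩ := dstages hf (fun k n A => WM (u k).1 (u k).2 n A)
    (fun n O => Clean O n) cost b N₀ (fun n O B h hO => clean_congr h hO)
    (fun k => by
      filter_upwards [hT k] with n h4 B hB
      exact h4 B hB)
  apply hN₀
  refine W900.CH.measure_far (null_shift h c) _ P hP ?_
  intro O hO
  obtain ⟨A, hoff, hd, hW⟩ := hA O (fun k => (hO (n k) (hnN k)).2)
  exact ⟨A, sep (fun m hm => (hO m hm).1) hu hn hnN hoff hW, hd⟩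

/-- the set of the oracles with `AM ⊄ MA` -/
theorem gauge_am (f : ℕ → ℝ) :
    Null f {A : Oracle | ∃ L, IsAM A L ∧ ¬ IsMA A L} ↔ Cond1 f := by
  refine ⟨cond_of_null, fun hf => (null_am hf).mono ?_⟩
  rintro A ⟨L, h1, h2⟩
  exact ⟨L, h1, fun h3 => h2 (Pool.Agent.W303.AM.task A L h3).1⟩

/-- the sets between -/
theorem gauge_am_between (f : ℕ → ℝ) (X : Set Oracle)
    (h1 : ∀ A : Oracle, (∃ L, IsAM A L ∧ ¬ IsMA A L) → A ∈ X)
    (h2 : ∀ A ∈ X, ∃ L, (IsAM A L ∨ IsMA A L) ∧ ¬ IsNP A L) : Null f X ↔ Cond1 f := by
  constructor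
  · intro h
    exact cond_of_null (h.mono h1)
  · intro hf
    have h3 : Null f (⋃ i : Bool, if i then {A : Oracle | ∃ L, IsAM A L ∧ ¬ IsNP A L} else
        {A : Oracle | ∃ L, IsMA A L ∧ ¬ IsNP A L}) := by
      refine null_iUnion _ fun i => ?_
      cases i
      · simpa using null_ma hf
      · simpa using null_am hf
    refine h3.mono ?_
    intro A hA
    obtain ⟨L, h4 | h4, h5⟩ := h2 A hA
    · exact Set.mem_iUnion.2 ⟨true, by simpa using ⟨L, h4, h5⟩⟩
    · exact Set.mem_iUnion.2 ⟨false, by simpa using ⟨L, h4, h5⟩⟩

end Pool.Agent.TH707.AM
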